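import Mathlib

/-!
# Edges of a graph and edges of its second eigenpolytope

The square of the 8-cycle: vertices `0, ..., 7`, two vertices adjacent when they differ by `1` or
`2` modulo `8`.  Its second largest eigenvalue is `√2`, with multiplicity two, and the
corresponding eigenpolytope is a regular octagon whose vertices are the eight different points
`v_0, ..., v_7`, in this cyclic order.  So the graph edge `{0, 2}` is a diagonal of the octagon.
-/

set_option autoImplicit false

namespace Pool.Agent.Results.MP_0d5a8e_co.SquareOfCycle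

open Module

/-- The adjacency matrix of `G` as a linear map of `ℝ^n`. -/
noncomputable def adj {n : ℕ} (G : SimpleGraph (Fin n)) [DecidableRel G.Adj] :
    (Fin n → ℝ) →ₗ[ℝ] (Fin n → ℝ) :=
  Matrix.toLin' (G.adjMatrix ℝ)

/-- `θ` is the second largest distinct eigenvalue of the adjacency matrix: it is an eigenvalue and
exactly one eigenvalue is larger. -/
def IsSecondEigenvalue {n : ℕ} (G : SimpleGraph (Fin n)) [DecidableRel G.Adj] (θ : ℝ) : Prop :=
  End.HasEigenvalue (adj G) θ ∧ ∃! μ : ℝ, End.HasEigenvalue (adj G) μ ∧ θ < μ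

/-- The eigenspace of the adjacency matrix for `θ`. -/
noncomputable abbrev Eig {n : ℕ} (G : SimpleGraph (Fin n)) [DecidableRel G.Adj] (θ : ℝ) :
    Submodule ℝ (Fin n → ℝ) :=
  End.eigenspace (adj G) θ

/-- The point `v_i` of `ℝ^d`: the `i`-th row of the matrix whose columns are the vectors of the
basis `u` of the eigenspace. -/
noncomputable def point {n d : ℕ} {G : SimpleGraph (Fin n)} [DecidableRel G.Adj] {θ : ℝ}
    (u : Basis (Fin d) ℝ (Eig G θ)) (i : Fin n) : Fin d → ℝ :=
  fun k => (u k : Fin n → ℝ) i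

/-- The `θ`-eigenpolytope, the convex hull of the points `v_i`. -/
def eigenpolytope {n d : ℕ} {G : SimpleGraph (Fin n)} [DecidableRel G.Adj] {θ : ℝ}
    (u : Basis (Fin d) ℝ (Eig G θ)) : Set (Fin d → ℝ) :=
  convexHull ℝ (Set.range (point u))

/-- The square of the 8-cycle. -/
def sq8 : SimpleGraph (Fin 8) where
  Adj i j := i - j = 1 ∨ j - i = 1 ∨ i - j = 2 ∨ j - i = 2
  symm := ⟨by intro i j h; tauto⟩
  loopless := ⟨by intro i h; revert h; revert i; decide⟩

instance : DecidableRel sq8.Adj := fun i j =>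
  inferInstanceAs (Decidable (i - j = 1 ∨ j - i = 1 ∨ i - j = 2 ∨ j - i = 2))

/-- the integral adjacency matrix -/
def MZ : Matrix (Fin 8) (Fin 8) ℤ := sq8.adjMatrix ℤ

theorem MZ_poly : MZ * (MZ * MZ - 2) * (MZ - 4) * (MZ + 2) = 0 := by decide +kernel

theorem nbrs (i : Fin 8) : sq8.neighborFinset i = {i + 1, i + 2, i + 6, i + 7} := by
  revert i
  decide +kernel

/-- the adjacency matrix in explicit form -/
theorem adj_apply (x : Fin 8 → ℝ) (i : Fin 8) :
    adj sq8 x i = x (i + 1) + x (i + 2) + x (i + 6) + x (i + 7) := by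
  rw [adj, Matrix.toLin'_apply, SimpleGraph.adjMatrix_mulVec_apply, nbrs,
    Finset.sum_insert (by revert i; decide), Finset.sum_insert (by revert i; decide),
    Finset.sum_insert (by revert i; decide), Finset.sum_singleton]
  ring

theorem mem_eig {θ : ℝ} {x : Fin 8 → ℝ} :
    x ∈ Eig sq8 θ ↔ ∀ i, x (i + 1) + x (i + 2) + x (i + 6) + x (i + 7) = θ * x i := by
  rw [End.mem_eigenspace_iff, funext_iff]
  simp only [adj_apply, Pi.smul_apply, smul_eq_mul]

theorem hs2 : Real.sqrt 2 * Real.sqrt 2 = 2 := Real.mul_self_sqrt (by norm_num)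

/-- vectors of the second eigenspace satisfy a linear recurrence -/
theorem rec_zero {x : Fin 8 → ℝ} (h : x ∈ Eig sq8 (Real.sqrt 2)) :
    x 0 + x 2 = Real.sqrt 2 * x 1 := by
  rw [mem_eig] at h
  have h0 := h 0
  have h1 := h 1
  have h2 := h 2
  have h3 := h 3
  have h4 := h 4
  have h5 := h 5
  have hs := hs2
  simp only [Fin.reduceAdd] at h0 h1 h2 h3 h4 h5
  set s := Real.sqrt 2
  linear_combination (1/7 - 5/7 * s) * h0 + (-2/7 + 3/7 * s) * h1 + (-1/7 - 2/7 * s) * h2 +
    (6/7 - 2/7 * s) * h3 + (-2/7 + 3/7 * s) * h4 + (1/7 + 2/7 * s) * h5 +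
    (-5/7 * x 0 - 2/7 * x 2 + 3/7 * x 1 - 2/7 * x 3 + 3/7 * x 4 + 2/7 * x 5) * hs

theorem shift_mem {θ : ℝ} {x : Fin 8 → ℝ} (h : x ∈ Eig sq8 θ) (k : Fin 8) :
    (fun i => x (i + k)) ∈ Eig sq8 θ := by
  rw [mem_eig] at h ⊢
  intro i
  have h1 := h (i + k)
  rw [add_right_comm i k 1, add_right_comm i k 2, add_right_comm i k 6,
    add_right_comm i k 7] at h1
  exact h1

theorem rec_gen {x : Fin 8 → ℝ} (h : x ∈ Eig sq8 (Real.sqrt 2)) (k : Fin 8) :
    x k + x (k + 2) = Real.sqrt 2 * x (k + 1) := by
  have h1 := rec_zero (shift_mem h k)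
  simp only [zero_add] at h1
  rw [add_comm k 2, add_comm k 1]
  exact h1

/-- opposite vertices carry opposite values -/
theorem opp {x : Fin 8 → ℝ} (h : x ∈ Eig sq8 (Real.sqrt 2)) (k : Fin 8) :
    x (k + 4) = - x k := by
  have h0 := rec_gen h k
  have h1 := rec_gen h (k + 1)
  have h2 := rec_gen h (k + 2)
  rw [add_assoc k 1 2, add_assoc k 1 1] at h1
  rw [add_assoc k 2 2, add_assoc k 2 1] at h2
  simp only [Fin.reduceAdd] at h1 h2
  have hs := hs2
  set s := Real.sqrt 2
  linear_combination h2 + s * h1 + h0 + x (k + 2) * hs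

/-- the cosine vector with maximum at `0` -/
noncomputable def cv : Fin 8 → ℝ :=
  ![1, Real.sqrt 2 / 2, 0, -(Real.sqrt 2 / 2), -1, -(Real.sqrt 2 / 2), 0, Real.sqrt 2 / 2]

theorem cv_mem : cv ∈ Eig sq8 (Real.sqrt 2) := by
  rw [mem_eig]
  have hs := hs2
  intro i
  fin_cases i <;> simp [cv] <;> set s := Real.sqrt 2 <;> nlinarith

/-- the cosine vector with maximum at `k` -/
theorem cv_shift_mem (k : Fin 8) : (fun i => cv (i + k)) ∈ Eig sq8 (Real.sqrt 2) :=
  shift_mem cv_mem k

theorem s_lt : Real.sqrt 2 < 2 := by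
  rw [Real.sqrt_lt' (by norm_num)]; norm_num

theorem s_pos : 0 < Real.sqrt 2 := Real.sqrt_pos.mpr (by norm_num)

theorem one_lt_s : 1 < Real.sqrt 2 := by
  rw [Real.lt_sqrt (by norm_num)]; norm_num

theorem cv_lt (i : Fin 8) (hi : i ≠ 0) : cv i < 1 := by
  have h1 := s_lt
  have h2 := s_pos
  fin_cases i <;> simp [cv] at hi ⊢ <;> linarith

/-- the functional on `ℝ^d` given by an eigenvector -/
noncomputable def func {d : ℕ} (u : Basis (Fin d) ℝ (Eig sq8 (Real.sqrt 2)))
    (x : Eig sq8 (Real.sqrt 2)) : (Fin d → ℝ) →ₗ[ℝ] ℝ :=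
  ∑ k, (u.repr x k) • LinearMap.proj k

theorem func_point {d : ℕ} (u : Basis (Fin d) ℝ (Eig sq8 (Real.sqrt 2)))
    (x : Eig sq8 (Real.sqrt 2)) (i : Fin 8) : func u x (point u i) = (x : Fin 8 → ℝ) i := by
  have h : (x : Fin 8 → ℝ) = ∑ k, u.repr x k • (u k : Fin 8 → ℝ) := by
    conv_lhs => rw [← u.sum_repr x]
    rw [AddSubmonoidClass.coe_finsetSum]
    rfl
  rw [h]
  simp [func, point, Finset.sum_apply]

/-- points are determined by the eigenvectors -/
theorem point_rel {d : ℕ} (u : Basis (Fin d) ℝ (Eig sq8 (Real.sqrt 2))) :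
    point u 0 + point u 2 = Real.sqrt 2 • point u 1 ∧ point u 5 = - point u 1 := by
  constructor
  · funext k
    simp only [Pi.add_apply, Pi.smul_apply, smul_eq_mul, point]
    exact rec_gen (u k).2 0
  · funext k
    simp only [Pi.neg_apply, point]
    exact opp (u k).2 1

/-- a point at which a linear functional has a strict maximum over a finite set is an extreme point
of the convex hull -/
theorem extreme_of_max {d : ℕ} (p : Fin 8 → (Fin d → ℝ)) (f : (Fin d → ℝ) →ₗ[ℝ] ℝ) (i : Fin 8)
    (h : ∀ j, j ≠ i → f (p j) < f (p i)) :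
    p i ∈ (convexHull ℝ (Set.range p)).extremePoints ℝ := by
  have hC : Convex ℝ ({x | f x < f (p i)} ∪ {p i}) := by
    intro x hx y hy a b ha hb hab
    rcases hx with hx | hx <;> rcases hy with hy | hy
    · left
      simp only [Set.mem_ofPred_eq, map_add, map_smul, smul_eq_mul] at hx hy ⊢
      rcases ha.eq_or_lt with h0 | h0
      · have : b = 1 := by linarith
        subst this; rw [← h0]; linarith
      · have h1 := mul_pos h0 (sub_pos.mpr hx)
        have h2 := mul_nonneg hb (sub_nonneg.mpr hy.le)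
        have h3 : b = 1 - a := by linarith
        subst h3
        linarith
    · rw [Set.mem_singleton_iff] at hy
      subst hy
      rcases ha.eq_or_lt with h0 | h0
      · right
        have : b = 1 := by linarith
        subst this; rw [← h0]; simp
      · left
        simp only [Set.mem_ofPred_eq, map_add, map_smul, smul_eq_mul] at hx ⊢
        have : b = 1 - a := by linarith
        subst this
        nlinarith
    · rw [Set.mem_singleton_iff] at hx
      subst hx
      rcases hb.eq_or_lt with h0 | h0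
      · right
        have : a = 1 := by linarith
        subst this; rw [← h0]; simp
      · left
        simp only [Set.mem_ofPred_eq, map_add, map_smul, smul_eq_mul] at hy ⊢
        have : a = 1 - b := by linarith
        subst this
        nlinarith
    · rw [Set.mem_singleton_iff] at hx hy
      subst hx
      rw [hy]
      right
      rw [← add_smul, hab, one_smul]
      rfl
  have hsub : convexHull ℝ (Set.range p) ⊆ {x | f x < f (p i)} ∪ {p i} := by
    refine convexHull_min ?_ hC
    rintro _ ⟨j, rfl⟩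
    by_cases hj : j = i
    · right; rw [hj]; rfl
    · left; exact h j hj
  rw [mem_extremePoints]
  refine ⟨subset_convexHull ℝ _ ⟨i, rfl⟩, ?_⟩
  intro x hx y hy hxy
  obtain ⟨a, b, ha, hb, hab, he⟩ := hxy
  have hf := congrArg f he
  simp only [map_add, map_smul, smul_eq_mul] at hf
  have hb' : b = 1 - a := by linarith
  rcases hsub hx with hx' | hx' <;> rcases hsub hy with hy' | hy'
  · simp only [Set.mem_ofPred_eq] at hx' hy'
    subst hb'
    nlinarith
  · rw [Set.mem_singleton_iff] at hy'
    subst hb'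
    rw [hy'] at hf
    simp only [Set.mem_ofPred_eq] at hx'
    nlinarith
  · rw [Set.mem_singleton_iff] at hx'
    subst hb'
    rw [hx'] at hf
    simp only [Set.mem_ofPred_eq] at hy'
    nlinarith
  · exact ⟨hx', hy'⟩

theorem point_extreme {d : ℕ} (u : Basis (Fin d) ℝ (Eig sq8 (Real.sqrt 2))) (i : Fin 8) :
    point u i ∈ (eigenpolytope u).extremePoints ℝ := by
  refine extreme_of_max (point u) (func u ⟨_, cv_shift_mem (-i)⟩) i ?_
  intro j hj
  rw [func_point, func_point]
  show cv (j + -i) < cv (i + -i)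
  have h1 : cv (i + -i) = 1 := by
    rw [add_neg_cancel]; rfl
  rw [h1]
  apply cv_lt
  intro h
  apply hj
  clear h1
  revert hj h
  revert i j
  decide

theorem point_inj {d : ℕ} (u : Basis (Fin d) ℝ (Eig sq8 (Real.sqrt 2))) :
    Function.Injective (point u) := by
  intro i j hij
  by_contra hne
  have h1 := func_point u ⟨_, cv_shift_mem (-i)⟩ i
  have h2 := func_point u ⟨_, cv_shift_mem (-i)⟩ j
  rw [hij, h2] at h1
  change cv (j + -i) = cv (i + -i) at h1
  have h3 : cv (i + -i) = 1 := by
    rw [add_neg_cancel]; rfl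
  have h4 : cv (j + -i) < 1 := by
    apply cv_lt
    intro h
    apply hne
    clear h1 h2 h3 hij hne u
    revert h
    revert i j
    decide
  linarith

/-- the segment from `v_0` to `v_2` is not a face of the octagon: its midpoint is an interior point
of the segment from `v_1` to `v_5 = -v_1`, and `v_1` is not on the segment from `v_0` to `v_2`. -/
theorem not_face {d : ℕ} (u : Basis (Fin d) ℝ (Eig sq8 (Real.sqrt 2))) :
    ¬ IsExtreme ℝ (eigenpolytope u) (segment ℝ (point u 0) (point u 2)) := by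
  intro hE
  obtain ⟨hr1, hr2⟩ := point_rel u
  have hs := hs2
  have hs1 := one_lt_s
  have hs3 := s_lt
  have hmem : ∀ i, point u i ∈ eigenpolytope u := fun i => subset_convexHull ℝ _ ⟨i, rfl⟩
  have hmid : (1/2 : ℝ) • point u 0 + (1/2 : ℝ) • point u 2 ∈
      segment ℝ (point u 0) (point u 2) :=
    ⟨1/2, 1/2, by norm_num, by norm_num, by norm_num, rfl⟩
  have hopen : (1/2 : ℝ) • point u 0 + (1/2 : ℝ) • point u 2 ∈
      openSegment ℝ (point u 1) (point u 5) := by
    refine ⟨(1 + Real.sqrt 2 / 2) / 2, (1 - Real.sqrt 2 / 2) / 2, by linarith, by linarith,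
      by ring, ?_⟩
    rw [hr2, ← smul_add, hr1]
    module
  have h1 := (hE.2 (hmem 1) (hmem 5) hmid hopen)
  obtain ⟨a, b, ha, hb, hab, he⟩ := h1
  -- test with the cosine vectors with maxima at `0` and `2`
  have t0 := congrArg (func u ⟨_, cv_shift_mem 0⟩) he
  have t1 := congrArg (func u ⟨_, cv_shift_mem (-2)⟩) he
  rw [map_add, map_smul, map_smul, func_point, func_point, func_point] at t0 t1
  have e0 : cv 0 = 1 := rfl
  have e1 : cv 1 = Real.sqrt 2 / 2 := rfl
  have e2 : cv 2 = 0 := rfl
  have e6 : cv 6 = 0 := rfl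
  have e7 : cv 7 = Real.sqrt 2 / 2 := rfl
  simp only [smul_eq_mul, show (0 : Fin 8) + 0 = 0 from rfl, show (2 : Fin 8) + 0 = 2 from rfl,
    show (1 : Fin 8) + 0 = 1 from rfl, show (0 : Fin 8) + -2 = 6 from rfl,
    show (2 : Fin 8) + -2 = 0 from rfl, show (1 : Fin 8) + -2 = 7 from rfl,
    e0, e1, e2, e6, e7] at t0 t1
  nlinarith

theorem eigen_four : (fun _ => 1 : Fin 8 → ℝ) ∈ Eig sq8 4 := by
  rw [mem_eig]
  intro i
  norm_num

/-- the eigenvalues of the graph -/
theorem eigenvalues {μ : ℝ} (h : End.HasEigenvalue (adj sq8) μ) (hμ : Real.sqrt 2 < μ) :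
    μ = 4 := by
  obtain ⟨x, hx⟩ := h.exists_hasEigenvector
  let p : Polynomial ℝ := Polynomial.X * (Polynomial.X * Polynomial.X - Polynomial.C 2) *
    (Polynomial.X - Polynomial.C 4) * (Polynomial.X + Polynomial.C 2)
  have hZ : MZ * (MZ * MZ - 2) * (MZ - 4) * (MZ + 2) = 0 := MZ_poly
  have hR := congrArg (Int.castRingHom ℝ).mapMatrix hZ
  have hM : (Int.castRingHom ℝ).mapMatrix MZ = sq8.adjMatrix ℝ := by
    ext i j
    simp [MZ, SimpleGraph.adjMatrix_apply]
  simp only [map_mul, map_sub, map_add, map_zero, map_ofNat, hM] at hR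
  have hp : Polynomial.aeval (adj sq8) p = 0 := by
    have h1 : adj sq8 = Matrix.toLinAlgEquiv' (sq8.adjMatrix ℝ) := rfl
    rw [h1, Polynomial.aeval_algEquiv, AlgHom.comp_apply]
    have h2 : Polynomial.aeval (sq8.adjMatrix ℝ) p = 0 := by
      simp only [p, map_mul, map_sub, map_add, Polynomial.aeval_X, Polynomial.aeval_C]
      exact hR
    rw [h2]
    simp
  have h3 := End.aeval_apply_of_hasEigenvector (p := p) hx
  rw [hp] at h3
  have h4 : p.eval μ = 0 := by
    by_contra h5
    exact hx.2 ((smul_eq_zero.mp h3.symm).resolve_left h5)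
  simp only [p, Polynomial.eval_mul, Polynomial.eval_sub, Polynomial.eval_add, Polynomial.eval_X,
    Polynomial.eval_C] at h4
  have hs := hs2
  have hs1 := one_lt_s
  have a1 : μ ≠ 0 := by linarith
  have a2 : μ * μ - 2 ≠ 0 := by nlinarith
  have a3 : μ + 2 ≠ 0 := by linarith
  have h5 := (mul_eq_zero.mp h4).resolve_right a3
  have h6 := (mul_eq_zero.mp h5).resolve_left (mul_ne_zero a1 a2)
  linarith

theorem second : IsSecondEigenvalue sq8 (Real.sqrt 2) := by
  refine ⟨?_, 4, ⟨?_, ?_⟩, ?_⟩
  · refine End.hasEigenvalue_of_hasEigenvector (x := cv) ⟨cv_mem, ?_⟩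
    intro h
    have := congrFun h 0
    simp [cv] at this
  · refine End.hasEigenvalue_of_hasEigenvector (x := fun _ => 1) ⟨eigen_four, ?_⟩
    intro h
    have := congrFun h 0
    simp at this
  · have := s_lt
    linarith
  · rintro μ ⟨h1, h2⟩
    exact eigenvalues h1 h2

theorem conn : sq8.Connected := by
  rw [SimpleGraph.connected_iff_exists_forall_reachable]
  refine ⟨0, fun v => ?_⟩
  have h (i : Fin 8) : sq8.Reachable i (i + 1) :=
    SimpleGraph.Adj.reachable (by revert i; decide)
  have h1 : sq8.Reachable 0 1 := h 0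
  have h2 := h1.trans (h 1)
  have h3 := h2.trans (h 2)
  have h4 := h3.trans (h 3)
  have h5 := h4.trans (h 4)
  have h6 := h5.trans (h 5)
  have h7 := h6.trans (h 6)
  fin_cases v
  · exact SimpleGraph.Reachable.refl _
  · exact h1
  · exact h2
  · exact h3
  · exact h4
  · exact h5
  · exact h6
  · exact h7

/-- **The answer is no.** There are a connected graph `G` on eight vertices and its second largest
distinct eigenvalue `θ` such that, for every choice of the basis of the eigenspace, the points `v_i`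
are pairwise different and all of them are vertices (extreme points) of the eigenpolytope, but for
some edge `ij` of `G` the segment from `v_i` to `v_j` is not a face of the eigenpolytope. -/
theorem result : ∃ (n : ℕ) (G : SimpleGraph (Fin n)) (_ : DecidableRel G.Adj) (θ : ℝ),
    G.Connected ∧ IsSecondEigenvalue G θ ∧
    ∀ (d : ℕ) (u : Basis (Fin d) ℝ (Eig G θ)),
      Function.Injective (point u) ∧
      (∀ i, point u i ∈ (eigenpolytope u).extremePoints ℝ) ∧
      ∃ i j, G.Adj i j ∧
        ¬ IsExtreme ℝ (eigenpolytope u) (segment ℝ (point u i) (point u j)) :=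
  ⟨8, sq8, inferInstance, Real.sqrt 2, conn, second, fun _ u =>
    ⟨point_inj u, point_extreme u, 0, 2, by decide, not_face u⟩⟩

end Pool.Agent.Results.MP_0d5a8e_co.SquareOfCycle
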